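import Mathlib

/-!
Definitions for the count of peripheral cycles of graphs embedded in the torus with large
representativity.
-/

namespace Q123.Peri

open Set

/-- An embedding of a simple graph `G` in a topological space `X`: vertices are distinct points,
each edge is a simple arc joining its two ends, an arc contains no vertex other than its two ends,
and two different arcs can only meet in a common end. -/
structure Embedding {V : Type} (G : SimpleGraph V) (X : Type) [TopologicalSpace X] where
  /-- the point of a vertex -/
  pos : V → X
  /-- the arc of an edge -/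
  arc : G.edgeSet → C(unitInterval, X)
  pos_injective : Function.Injective pos
  arc_injective : ∀ e, Function.Injective (arc e)
  arc_ends : ∀ e, s(arc e 0, arc e 1) = Sym2.map pos (e : Sym2 V)
  arc_vertex : ∀ e s v, arc e s = pos v → v ∈ (e : Sym2 V)
  arc_arc : ∀ e e' s t, e ≠ e' → arc e s = arc e' t →
    ∃ v, v ∈ (e : Sym2 V) ∧ v ∈ (e' : Sym2 V) ∧ arc e s = pos v

/-- The point set of the embedded graph: all vertices and all points of the arcs. -/
def Embedding.image {V : Type} {G : SimpleGraph V} {X : Type} [TopologicalSpace X]
    (φ : Embedding G X) : Set X :=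
  range φ.pos ∪ ⋃ e, range (φ.arc e)

/-- The embedding has representativity (face-width) at least `r`: every noncontractible simple
closed curve meets the embedded graph in at least `r` points. -/
def Embedding.RepresentativityAtLeast {V : Type} {G : SimpleGraph V} {X : Type}
    [TopologicalSpace X] (φ : Embedding G X) (r : ℕ) : Prop :=
  ∀ γ : C(Circle, X), Function.Injective γ → ¬ γ.Nullhomotopic →
    (r : ℕ∞) ≤ (range γ ∩ φ.image).encard

/-- The torus `ℝ/ℤ × ℝ/ℤ`. -/
abbrev Torus : Type := UnitAddCircle × UnitAddCircle

/-- `G` is 3-connected: it has at least four vertices, and deleting at most two vertices leaves a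
connected graph. -/
def ThreeConnected {V : Type} [Fintype V] (G : SimpleGraph V) : Prop :=
  4 ≤ Fintype.card V ∧ ∀ S : Set V, S.ncard ≤ 2 → (G.induce Sᶜ).Connected

/-- `H` is a minor of `G`: there are pairwise disjoint connected branch sets, one for each vertex
of `H`, with an edge of `G` between any two branch sets belonging to adjacent vertices of `H`. -/
def IsMinor {W V : Type} (H : SimpleGraph W) (G : SimpleGraph V) : Prop :=
  ∃ B : W → Set V, (∀ x, (G.induce (B x)).Connected) ∧
    (∀ x y, x ≠ y → Disjoint (B x) (B y)) ∧
    ∀ x y, H.Adj x y → ∃ u ∈ B x, ∃ v ∈ B y, G.Adj u v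

/-- `G` is nonplanar, in the form of Wagner's theorem: it has `K₅` or `K₃,₃` as a minor. -/
def Nonplanar {V : Type} (G : SimpleGraph V) : Prop :=
  IsMinor (⊤ : SimpleGraph (Fin 5)) G ∨ IsMinor (completeBipartiteGraph (Fin 3) (Fin 3)) G

/-- The peripheral cycles of `G`, as subgraphs: the cycles `C` of `G` that are induced and for
which `G - V(C)` is connected. -/
def peripheralCycles {V : Type} (G : SimpleGraph V) : Set G.Subgraph :=
  {C | (∃ (v : V) (p : G.Walk v v), p.IsCycle ∧ p.toSubgraph = C) ∧ C.IsInduced ∧
    (G.induce C.vertsᶜ).Preconnected}

end Q123.Peri
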