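import Mathlib
import Pool.Agent.Q123.Peri.Defs

/-!
General lemmas: walks avoiding a set, connectivity.
-/

namespace Q123.Peri

open Set SimpleGraph

variable {V : Type} {G : SimpleGraph V}

/-- `u` and `v` are joined by a walk inside the vertex set `T`. -/
def Joined (G : SimpleGraph V) (T : Set V) (u v : V) : Prop :=
  ∃ p : G.Walk u v, ∀ x ∈ p.support, x ∈ T

lemma Joined.refl {T : Set V} {u : V} (hu : u ∈ T) : Joined G T u u :=
  ⟨Walk.nil, by simpa using hu⟩

lemma Joined.symm {T : Set V} {u v : V} (h : Joined G T u v) : Joined G T v u := by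
  obtain ⟨p, hp⟩ := h
  exact ⟨p.reverse, by simpa using hp⟩

lemma Joined.trans {T : Set V} {u v w : V} (h : Joined G T u v) (h' : Joined G T v w) :
    Joined G T u w := by
  obtain ⟨p, hp⟩ := h
  obtain ⟨q, hq⟩ := h'
  refine ⟨p.append q, ?_⟩
  intro x hx
  rw [Walk.mem_support_append_iff] at hx
  rcases hx with h | h
  · exact hp x h
  · exact hq x h

lemma Joined.of_adj {T : Set V} {u v : V} (h : G.Adj u v) (hu : u ∈ T) (hv : v ∈ T) :
    Joined G T u v := by
  refine ⟨h.toWalk, ?_⟩
  intro x hx
  simp only [Adj.toWalk, Walk.support_cons, Walk.support_nil, List.mem_cons,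
    List.not_mem_nil, or_false] at hx
  rcases hx with rfl | rfl
  · exact hu
  · exact hv

lemma Joined.reachable {T : Set V} {u v : V} (h : Joined G T u v) (hu : u ∈ T) (hv : v ∈ T) :
    (G.induce T).Reachable ⟨u, hu⟩ ⟨v, hv⟩ := by
  obtain ⟨p, hp⟩ := h
  exact ⟨p.induce T hp⟩

lemma connected_of_joined {T : Set V} (b : V) (hb : b ∈ T) (h : ∀ u ∈ T, Joined G T u b) :
    (G.induce T).Connected := by
  rw [SimpleGraph.connected_iff_exists_forall_reachable]
  exact ⟨⟨b, hb⟩, fun w => ((h w.1 w.2).reachable w.2 hb).symm⟩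

lemma joined_of_connected {T : Set V} (h : (G.induce T).Connected) {u v : V} (hu : u ∈ T)
    (hv : v ∈ T) : Joined G T u v := by
  obtain ⟨p⟩ := h.preconnected ⟨u, hu⟩ ⟨v, hv⟩
  have key : ∀ (a b : T) (p : (G.induce T).Walk a b), Joined G T a.1 b.1 := by
    intro a b p
    induction p with
    | nil => exact Joined.refl (Subtype.prop _)
    | cons hadj q ih =>
      exact (Joined.of_adj (SimpleGraph.induce_adj.1 hadj) (Subtype.prop _)
        (Subtype.prop _)).trans ih
  exact key _ _ p

/-- a chain of adjacent vertices spans a connected set -/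
lemma joined_chain {T : Set V} (f : ℕ → V) (n : ℕ) (hadj : ∀ l < n, G.Adj (f l) (f (l + 1)))
    (hT : ∀ l ≤ n, f l ∈ T) : ∀ l ≤ n, Joined G T (f l) (f 0) := by
  intro l
  induction l with
  | zero => intro h; exact Joined.refl (hT 0 h)
  | succ l ih =>
    intro h
    exact (Joined.of_adj (hadj l (by omega)).symm (hT _ h) (hT _ (by omega))).trans
      (ih (by omega))

lemma connected_chain (f : ℕ → V) (n : ℕ) (hadj : ∀ l < n, G.Adj (f l) (f (l + 1))) :
    (G.induce {v | ∃ l ≤ n, v = f l}).Connected := by
  apply connected_of_joined (T := {v | ∃ l ≤ n, v = f l}) (f 0) ⟨0, Nat.zero_le _, rfl⟩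
  rintro u ⟨l, hl, rfl⟩
  exact joined_chain (T := {v | ∃ l ≤ n, v = f l}) f n hadj (fun l hl => ⟨l, hl, rfl⟩) l hl

lemma mem_of_ncard_le_two {V : Type} [Finite V] {S : Set V} (hS : S.ncard ≤ 2) {a b : V}
    (ha : a ∈ S) (hb : b ∈ S) (hab : a ≠ b) {x : V} (hx : x ∈ S) : x = a ∨ x = b := by
  by_contra hcon
  push Not at hcon
  have h3 : ({x, a, b} : Set V).ncard = 3 := by
    rw [Set.ncard_eq_three]
    exact ⟨x, a, b, hcon.1, hcon.2, hab, rfl⟩
  have hsub : ({x, a, b} : Set V) ⊆ S := by
    intro y hy
    simp only [Set.mem_insert_iff, Set.mem_singleton_iff] at hy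
    rcases hy with rfl | rfl | rfl <;> assumption
  have := Set.ncard_le_ncard hsub (Set.toFinite S)
  omega

lemma exists_pair_of_encard_lt_three {α : Type} {s : Set α} (hs : s.encard < 3) (d : α) :
    ∃ e f : α, s ⊆ {e, f} := by
  classical
  by_cases h0 : s ⊆ {d}
  · exact ⟨d, d, h0.trans (by simp)⟩
  by_contra hcon
  push Not at hcon
  obtain ⟨a, ha, _⟩ := Set.not_subset.1 h0
  obtain ⟨b, hb, hba⟩ := Set.not_subset.1 (hcon a a)
  obtain ⟨c, hc, hcab⟩ := Set.not_subset.1 (hcon a b)
  simp only [Set.mem_insert_iff, Set.mem_singleton_iff, not_or, or_self] at hba hcab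
  have h3 : ({a, b, c} : Set α).encard = 3 := by
    rw [Set.encard_eq_three]
    exact ⟨a, b, c, fun h => hba h.symm, fun h => hcab.1 h.symm, fun h => hcab.2 h.symm, rfl⟩
  have hsub : ({a, b, c} : Set α) ⊆ s := by
    intro y hy
    simp only [Set.mem_insert_iff, Set.mem_singleton_iff] at hy
    rcases hy with rfl | rfl | rfl <;> assumption
  have := Set.encard_le_encard hsub
  rw [h3] at this
  exact absurd (this.trans_lt hs) (lt_irrefl _)

/-- A 3-connected graph is 3-edge-connected. -/
lemma ThreeConnected.isEdgeConnected [Fintype V] (h : ThreeConnected G) :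
    G.IsEdgeConnected 3 := by
  classical
  obtain ⟨hcard, hS⟩ := h
  -- every vertex has a neighbour outside any two given vertices
  have hdeg : ∀ a x y : V, ∃ n, G.Adj a n ∧ n ≠ x ∧ n ≠ y := by
    intro a x y
    by_contra hcon
    push Not at hcon
    -- delete `x` and `y` (unless they equal `a`)
    have hc := hS (({x, y} : Set V) \ {a}) ((Set.ncard_le_ncard Set.sdiff_subset
      (Set.toFinite _)).trans (Set.ncard_insert_le x {y} |>.trans (by simp)))
    obtain ⟨z, hz⟩ : ∃ z : V, z ∉ ({a, x, y} : Finset V) := by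
      by_contra hcon'
      push Not at hcon'
      have : Fintype.card V ≤ 3 := by
        rw [← Finset.card_univ]
        refine (Finset.card_le_card (fun v _ => hcon' v)).trans ?_
        exact Finset.card_le_three
      omega
    simp only [Finset.mem_insert, Finset.mem_singleton, not_or] at hz
    have haT : a ∈ (({x, y} : Set V) \ {a})ᶜ := by simp
    have hzT : z ∈ (({x, y} : Set V) \ {a})ᶜ := by
      simp [hz.2.1, hz.2.2]
    obtain ⟨p, hp⟩ := joined_of_connected hc haT hzT
    cases p with
    | nil => exact hz.1 rfl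
    | cons hadj q =>
      rename_i n
      have hn : n ∈ (({x, y} : Set V) \ {a})ᶜ := hp n (by simp)
      have hna : n ≠ a := hadj.ne'
      have h1 := hcon n hadj
      have hn' : n = x ∨ n = y := by
        by_cases hx : n = x
        · exact Or.inl hx
        · exact Or.inr (h1 hx)
      exact hn ⟨by simpa using hn', by simpa using hna⟩
  intro u v s hs
  obtain ⟨e, f, hef⟩ := exists_pair_of_encard_lt_three hs s(u, u)
  -- a covering set of vertices
  obtain ⟨S, hScard, hcov, hnb⟩ : ∃ S : Set V, S.ncard ≤ 2 ∧ (∀ e ∈ s, ∃ c ∈ S, c ∈ e) ∧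
      ∀ c ∈ S, ∃ n, n ∉ S ∧ (G.deleteEdges s).Adj c n := by
    by_cases hcom : ∃ c, c ∈ e ∧ c ∈ f
    · obtain ⟨c, hce, hcf⟩ := hcom
      refine ⟨{c}, by simp, ?_, ?_⟩
      · intro e' he'
        rcases hef he' with rfl | h
        · exact ⟨c, rfl, hce⟩
        · rw [Set.mem_singleton_iff] at h
          subst h
          exact ⟨c, rfl, hcf⟩
      · intro c' hc'
        rw [Set.mem_singleton_iff] at hc'
        subst hc'
        obtain ⟨x, rfl⟩ := hce
        obtain ⟨y, rfl⟩ := hcf
        obtain ⟨n, hn, hnx, hny⟩ := hdeg c' x y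
        refine ⟨n, by simpa using hn.ne', ?_⟩
        rw [SimpleGraph.deleteEdges_adj]
        refine ⟨hn, fun hmem => ?_⟩
        rcases hef hmem with h | h
        · rw [Sym2.eq_iff] at h
          rcases h with ⟨_, h⟩ | ⟨h1, h2⟩
          · exact hnx h
          · exact hn.ne h2.symm
        · rw [Set.mem_singleton_iff, Sym2.eq_iff] at h
          rcases h with ⟨_, h⟩ | ⟨h1, h2⟩
          · exact hny h
          · exact hn.ne h2.symm
    · push Not at hcom
      induction e using Sym2.ind with
      | _ a a' =>
      induction f using Sym2.ind with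
      | _ b b' =>
      have hab : a ≠ b := by
        rintro rfl
        exact hcom a (by simp) (by simp)
      refine ⟨{a, b}, by rw [Set.ncard_pair hab], ?_, ?_⟩
      · intro e' he'
        rcases hef he' with rfl | h
        · exact ⟨a, by simp, by simp⟩
        · rw [Set.mem_singleton_iff] at h
          subst h
          exact ⟨b, by simp, by simp⟩
      · intro c hc
        rcases hc with rfl | hc
        · obtain ⟨n, hn, hnx, hny⟩ := hdeg c a' b
          refine ⟨n, by simp [hn.ne', hny], ?_⟩
          rw [SimpleGraph.deleteEdges_adj]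
          refine ⟨hn, fun hmem => ?_⟩
          rcases hef hmem with h | h
          · rw [Sym2.eq_iff] at h
            rcases h with ⟨_, h⟩ | ⟨h1, h2⟩
            · exact hnx h
            · exact hn.ne h2.symm
          · rw [Set.mem_singleton_iff] at h
            exact hcom c (by simp) (h ▸ by simp)
        · rw [Set.mem_singleton_iff] at hc
          subst hc
          obtain ⟨n, hn, hnx, hny⟩ := hdeg c b' a
          refine ⟨n, by simp [hn.ne', hny], ?_⟩
          rw [SimpleGraph.deleteEdges_adj]
          refine ⟨hn, fun hmem => ?_⟩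
          rcases hef hmem with h | h
          · exact hcom c (h ▸ by simp) (by simp)
          · rw [Set.mem_singleton_iff, Sym2.eq_iff] at h
            rcases h with ⟨_, h⟩ | ⟨h1, h2⟩
            · exact hnx h
            · exact hn.ne h2.symm
  -- vertices outside `S` are mutually reachable
  have hout : ∀ x y, x ∉ S → y ∉ S → (G.deleteEdges s).Reachable x y := by
    intro x y hx hy
    obtain ⟨p, hp⟩ := joined_of_connected (hS S hScard) (u := x) (v := y) hx hy
    have key : ∀ (x y : V) (p : G.Walk x y), (∀ z ∈ p.support, z ∉ S) →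
        (G.deleteEdges s).Reachable x y := by
      intro x y p
      induction p with
      | nil => intro _; exact SimpleGraph.Reachable.refl _
      | cons hadj q ih =>
        rename_i a b c
        intro hz
        have ha : a ∉ S := hz a (by simp)
        have hb : b ∉ S := hz b (by simp)
        refine SimpleGraph.Reachable.trans (SimpleGraph.Adj.reachable ?_)
          (ih (fun z h => hz z (by simp [h])))
        rw [SimpleGraph.deleteEdges_adj]
        refine ⟨hadj, fun hmem => ?_⟩
        obtain ⟨c', hc', hce⟩ := hcov _ hmem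
        rcases Sym2.mem_iff.1 hce with rfl | rfl
        · exact ha hc'
        · exact hb hc'
    exact key x y p (fun z h => hp z h)
  have hall : ∀ x, ∃ x', x' ∉ S ∧ (G.deleteEdges s).Reachable x x' := by
    intro x
    by_cases hx : x ∈ S
    · obtain ⟨n, hn, hadj⟩ := hnb x hx
      exact ⟨n, hn, hadj.reachable⟩
    · exact ⟨x, hx, SimpleGraph.Reachable.refl _⟩
  obtain ⟨u', hu', hru⟩ := hall u
  obtain ⟨v', hv', hrv⟩ := hall v
  exact hru.trans ((hout u' v' hu' hv').trans hrv.symm)

end Q123.Peri
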