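import Mathlib
import Pool.Agent.Q123.Peri.Basic

/-!
The torus grid with one diagonal and a stack of `k` vertices of degree three (or four) in one
triangle.
-/

namespace Q123.Peri

open Set SimpleGraph

/-- vertices: the grid `ZMod m × ZMod m` and `k` stacked vertices -/
abbrev Vx (m k : ℕ) : Type := (ZMod m × ZMod m) ⊕ Fin k

/-- names of edges -/
inductive Ed (m k : ℕ) : Type
  | h (i j : ZMod m) : Ed m k
  | v (i j : ZMod m) : Ed m k
  | d : Ed m k
  | x (t : Fin k) : Ed m k
  | y (t : Fin k) : Ed m k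
  | z (t : Fin k) : Ed m k

/-- the vertex preceding the `t`-th stacked vertex -/
def prev {m k : ℕ} (t : Fin k) : Vx m k :=
  if h : t.val = 0 then Sum.inl (0, 0) else Sum.inr ⟨t.val - 1, by omega⟩

/-- the first end -/
def src {m k : ℕ} : Ed m k → Vx m k
  | .h i j => Sum.inl (i, j)
  | .v i j => Sum.inl (i, j)
  | .d => Sum.inl (1, 0)
  | .x t => Sum.inr t
  | .y t => Sum.inr t
  | .z t => Sum.inr t

/-- the second end -/
def tgt {m k : ℕ} : Ed m k → Vx m k
  | .h i j => Sum.inl (i + 1, j)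
  | .v i j => Sum.inl (i, j + 1)
  | .d => Sum.inl (0, 1)
  | .x _ => Sum.inl (1, 0)
  | .y _ => Sum.inl (0, 1)
  | .z t => prev t

/-- the graph -/
def Gr (m k : ℕ) : SimpleGraph (Vx m k) where
  Adj u w := u ≠ w ∧ ∃ e : Ed m k, s(src e, tgt e) = s(u, w)
  symm := ⟨fun u w h => ⟨h.1.symm, by
    obtain ⟨e, he⟩ := h.2
    exact ⟨e, he.trans Sym2.eq_swap⟩⟩⟩
  loopless := ⟨fun u h => h.1 rfl⟩

lemma one_ne_zero_of {m : ℕ} (hm : 3 ≤ m) : (1 : ZMod m) ≠ 0 := by
  have : Fact (1 < m) := ⟨by omega⟩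
  exact one_ne_zero

lemma two_ne_zero_of {m : ℕ} (hm : 3 ≤ m) : (1 + 1 : ZMod m) ≠ 0 := by
  intro h
  have h2 : ((2 : ℕ) : ZMod m) = 0 := by
    push_cast
    rw [← one_add_one_eq_two]
    exact h
  rw [ZMod.natCast_eq_zero_iff] at h2
  have := Nat.le_of_dvd (by norm_num) h2
  omega

lemma src_ne_tgt {m k : ℕ} (hm : 3 ≤ m) (e : Ed m k) : src e ≠ tgt e := by
  have h1 := one_ne_zero_of hm
  cases e with
  | h i j => intro h; simp [src, tgt] at h; exact h1 h
  | v i j => intro h; simp [src, tgt] at h; exact h1 h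
  | d => intro h; simp [src, tgt] at h; exact h1 h.1
  | x t => intro h; simp [src, tgt] at h
  | y t => intro h; simp [src, tgt] at h
  | z t =>
    intro h
    simp only [src, tgt, prev] at h
    split_ifs at h with h0
    · simp only [Sum.inr.injEq, Fin.ext_iff] at h
      omega

lemma adj_src_tgt {m k : ℕ} (hm : 3 ≤ m) (e : Ed m k) : (Gr m k).Adj (src e) (tgt e) :=
  ⟨src_ne_tgt hm e, e, rfl⟩

lemma adj_h {m k : ℕ} (hm : 3 ≤ m) (i j : ZMod m) :
    (Gr m k).Adj (Sum.inl (i, j)) (Sum.inl (i + 1, j)) := adj_src_tgt hm (Ed.h i j)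

lemma adj_v {m k : ℕ} (hm : 3 ≤ m) (i j : ZMod m) :
    (Gr m k).Adj (Sum.inl (i, j)) (Sum.inl (i, j + 1)) := adj_src_tgt hm (Ed.v i j)

section conn

variable {m k : ℕ}

lemma card_le_two_pair [NeZero m] {S : Set (Vx m k)} (hS : S.ncard ≤ 2) {a b : Vx m k}
    (ha : a ∈ S) (hb : b ∈ S) (hab : a ≠ b) {x : Vx m k} (hx : x ∈ S) : x = a ∨ x = b :=
  mem_of_ncard_le_two hS ha hb hab hx

/-- there is an intact line -/
lemma exists_intact [NeZero m] (hm : 3 ≤ m) {S : Set (Vx m k)} (hS : S.ncard ≤ 2)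
    (c : ZMod m → ZMod m → Vx m k) (hc : ∀ j j' i i', c j i = c j' i' → j = j') :
    ∃ j, ∀ i, c j i ∉ S := by
  by_contra hcon
  push Not at hcon
  choose f hf using hcon
  have hinj : Function.Injective (fun j => c j (f j)) := fun j j' h => hc _ _ _ _ h
  have h1 : (Set.range (fun j => c j (f j))).ncard ≤ S.ncard := by
    apply Set.ncard_le_ncard _ (Set.toFinite S)
    rintro _ ⟨j, rfl⟩
    exact hf j
  rw [← Set.image_univ, Set.ncard_image_of_injective _ hinj, Set.ncard_univ,
    Nat.card_zmod] at h1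
  omega

lemma joined_row [NeZero m] (hm : 3 ≤ m) (T : Set (Vx m k)) (j : ZMod m)
    (hT : ∀ i, Sum.inl (i, j) ∈ T) (i i' : ZMod m) :
    Joined (Gr m k) T (Sum.inl (i, j)) (Sum.inl (i', j)) := by
  have key : ∀ n : ℕ, Joined (Gr m k) T (Sum.inl (i + n, j)) (Sum.inl (i, j)) := by
    intro n
    induction n with
    | zero => simpa using Joined.refl (hT i)
    | succ n ih =>
      refine Joined.trans (Joined.symm (Joined.of_adj ?_ (hT _) (hT _))) ih
      have := adj_h (k := k) hm (i + n) j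
      push_cast
      rw [← add_assoc]
      exact this
  have := key (i' - i).val
  rw [ZMod.natCast_zmod_val, add_sub_cancel] at this
  exact this.symm

lemma joined_col [NeZero m] (hm : 3 ≤ m) (T : Set (Vx m k)) (i : ZMod m)
    (hT : ∀ j, Sum.inl (i, j) ∈ T) (j j' : ZMod m) :
    Joined (Gr m k) T (Sum.inl (i, j)) (Sum.inl (i, j')) := by
  have key : ∀ n : ℕ, Joined (Gr m k) T (Sum.inl (i, j + n)) (Sum.inl (i, j)) := by
    intro n
    induction n with
    | zero => simpa using Joined.refl (hT j)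
    | succ n ih =>
      refine Joined.trans (Joined.symm (Joined.of_adj ?_ (hT _) (hT _))) ih
      have := adj_v (k := k) hm i (j + n)
      push_cast
      rw [← add_assoc]
      exact this
  have := key (j' - j).val
  rw [ZMod.natCast_zmod_val, add_sub_cancel] at this
  exact this.symm

lemma threeConnected [NeZero m] (hm : 3 ≤ m) : ThreeConnected (Gr m k) := by
  classical
  constructor
  · rw [Fintype.card_sum, Fintype.card_prod, ZMod.card]
    nlinarith
  intro S hS
  obtain ⟨j0, hj0⟩ := exists_intact hm hS (fun j i => Sum.inl (i, j)) (by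
    intro j j' i i' h
    simp only [Sum.inl.injEq, Prod.mk.injEq] at h
    exact h.2)
  obtain ⟨i0, hi0⟩ := exists_intact hm hS (fun i j => Sum.inl (i, j)) (by
    intro j j' i i' h
    simp only [Sum.inl.injEq, Prod.mk.injEq] at h
    exact h.1)
  have hcolbase : ∀ i j, (∀ j, (Sum.inl (i, j) : Vx m k) ∉ S) →
      Joined (Gr m k) Sᶜ (Sum.inl (i, j)) (Sum.inl (i0, j0)) := by
    intro i j h
    exact (joined_col hm Sᶜ i h j j0).trans (joined_row hm Sᶜ j0 hj0 i i0)
  have hrowbase : ∀ i j, (∀ i, (Sum.inl (i, j) : Vx m k) ∉ S) →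
      Joined (Gr m k) Sᶜ (Sum.inl (i, j)) (Sum.inl (i0, j0)) := by
    intro i j h
    exact (joined_row hm Sᶜ j h i i0).trans (joined_col hm Sᶜ i0 hi0 j j0)
  have hgrid : ∀ i j, (Sum.inl (i, j) : Vx m k) ∉ S →
      Joined (Gr m k) Sᶜ (Sum.inl (i, j)) (Sum.inl (i0, j0)) := by
    intro i j hij
    by_cases hcol : ∀ j, (Sum.inl (i, j) : Vx m k) ∉ S
    · exact hcolbase i j hcol
    by_cases hrow : ∀ i, (Sum.inl (i, j) : Vx m k) ∉ S
    · exact hrowbase i j hrow
    push Not at hcol hrow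
    obtain ⟨j', hj'⟩ := hcol
    obtain ⟨i', hi'⟩ := hrow
    have hii' : i' ≠ i := by
      rintro rfl
      exact hij hi'
    have hjj' : j' ≠ j := by
      rintro rfl
      exact hij hj'
    have hne : (Sum.inl (i, j') : Vx m k) ≠ Sum.inl (i', j) := by
      intro h
      simp only [Sum.inl.injEq, Prod.mk.injEq] at h
      exact hjj' h.2
    have hall := fun x (hx : x ∈ S) => card_le_two_pair hS hj' hi' hne hx
    -- the two horizontal neighbours
    have h12 : i + 1 ≠ i - 1 := by
      intro h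
      apply two_ne_zero_of hm
      have : i + 1 + 1 = i := by rw [h]; ring
      have h3 : i + (1 + 1) = i + 0 := by rw [← add_assoc, this, add_zero]
      exact add_left_cancel h3
    have hcolint : ∀ a, a ≠ i → a ≠ i' → ∀ j, (Sum.inl (a, j) : Vx m k) ∉ S := by
      intro a ha ha' b hb
      rcases hall _ hb with h | h
      · simp only [Sum.inl.injEq, Prod.mk.injEq] at h
        exact ha h.1
      · simp only [Sum.inl.injEq, Prod.mk.injEq] at h
        exact ha' h.1
    have h1 := one_ne_zero_of hm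
    by_cases hp : i + 1 = i'
    · -- go to `i - 1`
      have hq : i - 1 ≠ i' := fun h => h12 (hp.trans h.symm)
      have hq' : i - 1 ≠ i := by simpa using h1
      have hc := hcolint _ hq' hq
      refine Joined.trans (Joined.symm ?_) (hcolbase (i - 1) j hc)
      have := adj_h (k := k) hm (i - 1) j
      rw [sub_add_cancel] at this
      exact Joined.of_adj this (hc j) hij
    · have hq' : i + 1 ≠ i := by simpa using h1
      have hc := hcolint _ hq' hp
      exact Joined.trans (Joined.of_adj (adj_h hm i j) hij (hc j)) (hcolbase (i + 1) j hc)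
  apply connected_of_joined (Sum.inl (i0, j0)) (hi0 j0)
  intro u hu
  rcases u with ⟨i, j⟩ | t
  · exact hgrid i j hu
  by_cases hx : (Sum.inl (1, 0) : Vx m k) ∈ S
  · by_cases hy : (Sum.inl (0, 1) : Vx m k) ∈ S
    · have h1 := one_ne_zero_of hm
      have hne : (Sum.inl (1, 0) : Vx m k) ≠ Sum.inl (0, 1) := by
        intro h
        simp only [Sum.inl.injEq, Prod.mk.injEq] at h
        exact h1 h.1
      have hall := fun x (hx' : x ∈ S) => card_le_two_pair hS hx hy hne hx'
      have h00 : (Sum.inl (0, 0) : Vx m k) ∉ S := by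
        intro h
        rcases hall _ h with h | h
        · simp only [Sum.inl.injEq, Prod.mk.injEq] at h
          exact h1 h.1.symm
        · simp only [Sum.inl.injEq, Prod.mk.injEq] at h
          exact h1 h.2.symm
      have hinr : ∀ t : Fin k, (Sum.inr t : Vx m k) ∉ S := by
        intro t h
        rcases hall _ h with h | h <;> simp at h
      have key : ∀ n (hn : n < k), Joined (Gr m k) Sᶜ (Sum.inr ⟨n, hn⟩) (Sum.inl (0, 0)) := by
        intro n
        induction n with
        | zero =>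
          intro hn
          have := adj_src_tgt hm (Ed.z (⟨0, hn⟩ : Fin k) : Ed m k)
          simp only [src, tgt, prev, dif_pos] at this
          exact Joined.of_adj this (hinr _) h00
        | succ n ih =>
          intro hn
          have := adj_src_tgt hm (Ed.z (⟨n + 1, hn⟩ : Fin k) : Ed m k)
          simp only [src, tgt, prev, Nat.add_eq_zero_iff, one_ne_zero, and_false, dif_neg,
            not_false_eq_true, Nat.add_sub_cancel] at this
          exact Joined.trans (Joined.of_adj this (hinr _) (hinr _)) (ih (by omega))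
      exact (key t.val t.isLt).trans (hgrid 0 0 h00)
    · exact Joined.trans (Joined.of_adj (adj_src_tgt hm (Ed.y t)) hu hy) (hgrid 0 1 hy)
  · exact Joined.trans (Joined.of_adj (adj_src_tgt hm (Ed.x t)) hu hx) (hgrid 1 0 hx)

/-- coordinates of the branch sets -/
def ca : Fin 3 ⊕ Fin 3 → ℕ → ℕ
  | Sum.inl 0, _ => 0
  | Sum.inl 1, _ => 1
  | Sum.inl 2, _ => 2
  | Sum.inr 0, l => l
  | Sum.inr 1, l => 2 + l
  | Sum.inr 2, l => 2 + l

/-- coordinates of the branch sets -/
def cb : Fin 3 ⊕ Fin 3 → ℕ → ℕ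
  | Sum.inl 0, l => l
  | Sum.inl 1, l => l
  | Sum.inl 2, l => 2 + l
  | Sum.inr 0, _ => 2
  | Sum.inr 1, _ => 0
  | Sum.inr 2, _ => 1

/-- lengths of the branch sets -/
def cn (m : ℕ) : Fin 3 ⊕ Fin 3 → ℕ
  | Sum.inl 0 => 1
  | Sum.inl 1 => 1
  | Sum.inl 2 => m - 3
  | Sum.inr 0 => 1
  | Sum.inr 1 => m - 3
  | Sum.inr 2 => m - 3

/-- vertices of the branch sets -/
def cf (m k : ℕ) (w : Fin 3 ⊕ Fin 3) (l : ℕ) : Vx m k :=
  Sum.inl (((ca w l : ℕ) : ZMod m), ((cb w l : ℕ) : ZMod m))

lemma cast_inj_of_lt {m a b : ℕ} (ha : a < m) (hb : b < m) (h : (a : ZMod m) = (b : ZMod m)) :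
    a = b := by
  rw [ZMod.natCast_eq_natCast_iff'] at h
  rwa [Nat.mod_eq_of_lt ha, Nat.mod_eq_of_lt hb] at h

lemma adj_step (hm : 3 ≤ m) (w : Fin 3 ⊕ Fin 3) (l : ℕ) :
    (Gr m k).Adj (cf m k w l) (cf m k w (l + 1)) := by
  rcases w with w | w <;> fin_cases w
  · have := adj_v (k := k) hm 0 (l : ZMod m)
    simpa [cf, ca, cb] using this
  · have := adj_v (k := k) hm 1 (l : ZMod m)
    simpa [cf, ca, cb] using this
  · have := adj_v (k := k) hm 2 (2 + l : ZMod m)
    simpa [cf, ca, cb, add_assoc] using this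
  · have := adj_h (k := k) hm (l : ZMod m) 2
    simpa [cf, ca, cb] using this
  · have := adj_h (k := k) hm (2 + l : ZMod m) 0
    simpa [cf, ca, cb, add_assoc] using this
  · have := adj_h (k := k) hm (2 + l : ZMod m) 1
    simpa [cf, ca, cb, add_assoc] using this

lemma ca_lt (hm : 3 ≤ m) (w : Fin 3 ⊕ Fin 3) (l : ℕ) (hl : l ≤ cn m w) : ca w l < m := by
  rcases w with w | w <;> fin_cases w <;> simp only [ca, cn] at hl ⊢ <;> omega

lemma cb_lt (hm : 3 ≤ m) (w : Fin 3 ⊕ Fin 3) (l : ℕ) (hl : l ≤ cn m w) : cb w l < m := by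
  rcases w with w | w <;> fin_cases w <;> simp only [cb, cn] at hl ⊢ <;> omega

lemma coords_disjoint (hm : 3 ≤ m) (w w' : Fin 3 ⊕ Fin 3) (hw : w ≠ w') (l l' : ℕ)
    (hl : l ≤ cn m w) (hl' : l' ≤ cn m w') (ha : ca w l = ca w' l') (hb : cb w l = cb w' l') :
    False := by
  rcases w with w | w <;> rcases w' with w' | w' <;> fin_cases w <;> fin_cases w' <;>
    simp only [ca, cb, cn] at hl hl' ha hb <;> first | exact hw rfl | omega

/-- `K₃,₃` is a minor -/
lemma nonplanar (hm : 3 ≤ m) : Nonplanar (Gr m k) := by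
  right
  refine ⟨fun w => {v | ∃ l ≤ cn m w, v = cf m k w l}, ?_, ?_, ?_⟩
  · intro w
    exact connected_chain (cf m k w) (cn m w) (fun l _ => adj_step hm w l)
  · intro w w' hw
    rw [Set.disjoint_left]
    rintro v ⟨l, hl, rfl⟩ ⟨l', hl', heq⟩
    simp only [cf, Sum.inl.injEq, Prod.mk.injEq] at heq
    exact coords_disjoint hm w w' hw l l' hl hl'
      (cast_inj_of_lt (ca_lt hm w l hl) (ca_lt hm w' l' hl') heq.1)
      (cast_inj_of_lt (cb_lt hm w l hl) (cb_lt hm w' l' hl') heq.2)
  · have key : ∀ a b : Fin 3, ∃ l ≤ cn m (Sum.inl a), ∃ l' ≤ cn m (Sum.inr b),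
        (Gr m k).Adj (cf m k (Sum.inl a) l) (cf m k (Sum.inr b) l') := by
      have hwrap : ((2 + (m - 3) : ℕ) : ZMod m) + 1 = 0 := by
        have : ((2 + (m - 3) + 1 : ℕ) : ZMod m) = 0 := by
          rw [show 2 + (m - 3) + 1 = m by omega]
          exact ZMod.natCast_self m
        push_cast at this ⊢
        exact this
      intro a b
      fin_cases a <;> fin_cases b
      · refine ⟨1, le_rfl, 0, Nat.zero_le _, ?_⟩
        have := adj_v (k := k) hm 0 1
        simpa [cf, ca, cb, one_add_one_eq_two] using this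
      · refine ⟨0, Nat.zero_le _, m - 3, le_rfl, ?_⟩
        have := adj_h (k := k) hm ((2 + (m - 3) : ℕ) : ZMod m) 0
        rw [hwrap] at this
        simpa [cf, ca, cb] using this.symm
      · refine ⟨1, le_rfl, m - 3, le_rfl, ?_⟩
        have := adj_h (k := k) hm ((2 + (m - 3) : ℕ) : ZMod m) 1
        rw [hwrap] at this
        simpa [cf, ca, cb] using this.symm
      · refine ⟨1, le_rfl, 1, le_rfl, ?_⟩
        have := adj_v (k := k) hm 1 1
        simpa [cf, ca, cb, one_add_one_eq_two] using this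
      · refine ⟨0, Nat.zero_le _, 0, Nat.zero_le _, ?_⟩
        have := adj_h (k := k) hm 1 0
        simpa [cf, ca, cb, one_add_one_eq_two] using this
      · refine ⟨1, le_rfl, 0, Nat.zero_le _, ?_⟩
        have := adj_h (k := k) hm 1 1
        simpa [cf, ca, cb, one_add_one_eq_two] using this
      · refine ⟨0, Nat.zero_le _, 1, le_rfl, ?_⟩
        have := adj_h (k := k) hm 1 2
        simpa [cf, ca, cb, one_add_one_eq_two] using this.symm
      · refine ⟨m - 3, le_rfl, 0, Nat.zero_le _, ?_⟩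
        have := adj_v (k := k) hm 2 ((2 + (m - 3) : ℕ) : ZMod m)
        rw [hwrap] at this
        simpa [cf, ca, cb] using this
      · refine ⟨0, Nat.zero_le _, 0, Nat.zero_le _, ?_⟩
        have := adj_v (k := k) hm 2 1
        simpa [cf, ca, cb, one_add_one_eq_two] using this.symm
    intro w w' hww
    rw [completeBipartiteGraph_adj] at hww
    rcases w with a | a <;> rcases w' with b | b <;> simp at hww
    · obtain ⟨l, hl, l', hl', h⟩ := key a b
      exact ⟨_, ⟨l, hl, rfl⟩, _, ⟨l', hl', rfl⟩, h⟩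
    · obtain ⟨l, hl, l', hl', h⟩ := key b a
      exact ⟨_, ⟨l', hl', rfl⟩, _, ⟨l, hl, rfl⟩, h.symm⟩

end conn

end Q123.Peri
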