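import Mathlib
import Pool.Agent.Q123.Peri.Graph

/-!
Counting the peripheral cycles of the graph `Gr m k`.
-/

namespace Q123.Peri

open Set SimpleGraph

lemma verts_of_triangle {V : Type} [Finite V] {G : SimpleGraph V} {v : V} (p : G.Walk v v)
    (hp : p.IsCycle) (a b c : V) (hab : p.toSubgraph.Adj a b) (hac : p.toSubgraph.Adj a c)
    (hbc : p.toSubgraph.Adj b c) : p.toSubgraph.verts = {a, b, c} := by
  have hnab : a ≠ b := hab.ne
  have hnac : a ≠ c := hac.ne
  have hnbc : b ≠ c := hbc.ne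
  have h2 : ∀ x y z, p.toSubgraph.Adj x y → p.toSubgraph.Adj x z → y ≠ z →
      ∀ w, p.toSubgraph.Adj x w → w = y ∨ w = z := by
    intro x y z hy hz hyz w hw
    have hx : x ∈ p.support := by
      rw [← Walk.mem_verts_toSubgraph]
      exact p.toSubgraph.edge_vert hy
    have hn := hp.ncard_neighborSet_toSubgraph_eq_two hx
    exact mem_of_ncard_le_two (S := p.toSubgraph.neighborSet x) hn.le hy hz hyz hw
  have hclosed : ∀ x, (x = a ∨ x = b ∨ x = c) → ∀ w, p.toSubgraph.Adj x w →
      (w = a ∨ w = b ∨ w = c) := by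
    rintro x (rfl | rfl | rfl) w hw
    · rcases h2 x b c hab hac hnbc w hw with h | h
      · exact Or.inr (Or.inl h)
      · exact Or.inr (Or.inr h)
    · rcases h2 x a c hab.symm hbc hnac w hw with h | h
      · exact Or.inl h
      · exact Or.inr (Or.inr h)
    · rcases h2 x a b hac.symm hbc.symm hnab w hw with h | h
      · exact Or.inl h
      · exact Or.inr (Or.inl h)
  have hconn := p.toSubgraph_connected
  have ha : a ∈ p.toSubgraph.verts := p.toSubgraph.edge_vert hab
  have hb : b ∈ p.toSubgraph.verts := p.toSubgraph.edge_vert hbc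
  have hc : c ∈ p.toSubgraph.verts := p.toSubgraph.edge_vert hac.symm
  apply Set.Subset.antisymm
  · intro w hw
    obtain ⟨q⟩ := hconn.coe.preconnected ⟨a, ha⟩ ⟨w, hw⟩
    have key : ∀ (x y : p.toSubgraph.verts) (q : p.toSubgraph.coe.Walk x y),
        (x.1 = a ∨ x.1 = b ∨ x.1 = c) → (y.1 = a ∨ y.1 = b ∨ y.1 = c) := by
      intro x y q
      induction q with
      | nil => exact id
      | cons hadj q ih =>
        intro h
        exact ih (hclosed _ h _ hadj)
    have := key _ _ q (Or.inl rfl)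
    simpa using this
  · intro w hw
    simp only [Set.mem_insert_iff, Set.mem_singleton_iff] at hw
    rcases hw with rfl | rfl | rfl <;> assumption

section

variable {m k : ℕ}

/-- neighbours of a stacked vertex -/
lemma adj_inr (t : Fin k) (u : Vx m k) (h : (Gr m k).Adj (Sum.inr t) u) :
    u = Sum.inl (1, 0) ∨ u = Sum.inl (0, 1) ∨ u = prev t ∨
      ∃ t' : Fin k, t < t' ∧ u = Sum.inr t' := by
  obtain ⟨_, e, he⟩ := h
  rw [Sym2.eq_iff] at he
  cases e with
  | h i j => simp [src, tgt] at he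
  | v i j => simp [src, tgt] at he
  | d => simp [src, tgt] at he
  | x t' =>
    simp only [src, tgt] at he
    rcases he with ⟨_, h⟩ | ⟨_, h⟩
    · exact Or.inl h.symm
    · simp at h
  | y t' =>
    simp only [src, tgt] at he
    rcases he with ⟨_, h⟩ | ⟨_, h⟩
    · exact Or.inr (Or.inl h.symm)
    · simp at h
  | z t' =>
    simp only [src, tgt] at he
    rcases he with ⟨h1, h⟩ | ⟨h1, h⟩
    · have : t' = t := by simpa using h1
      subst this
      exact Or.inr (Or.inr (Or.inl h.symm))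
    · right; right; right
      refine ⟨t', ?_, h1.symm⟩
      unfold prev at h
      split_ifs at h with h0
      · simp only [Sum.inr.injEq, Fin.ext_iff] at h
        rw [Fin.lt_def]
        omega

lemma prev_cases (t : Fin k) :
    (prev t : Vx m k) = Sum.inl (0, 0) ∨ ∃ t' : Fin k, (prev t : Vx m k) = Sum.inr t' := by
  unfold prev
  split_ifs with h0
  · exact Or.inl rfl
  · exact Or.inr ⟨_, rfl⟩

lemma adj_xy (hm : 3 ≤ m) : (Gr m k).Adj (Sum.inl (1, 0)) (Sum.inl (0, 1)) :=
  adj_src_tgt hm Ed.d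

lemma adj_prev_x (hm : 3 ≤ m) (t : Fin k) : (Gr m k).Adj (prev t) (Sum.inl (1, 0)) := by
  rcases prev_cases (m := m) t with h | ⟨t', h⟩
  · rw [h]
    have := adj_h (k := k) hm 0 0
    simpa using this
  · rw [h]
    exact adj_src_tgt hm (Ed.x t')

lemma adj_prev_y (hm : 3 ≤ m) (t : Fin k) : (Gr m k).Adj (prev t) (Sum.inl (0, 1)) := by
  rcases prev_cases (m := m) t with h | ⟨t', h⟩
  · rw [h]
    have := adj_v (k := k) hm 0 0
    simpa using this
  · rw [h]
    exact adj_src_tgt hm (Ed.y t')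

/-- the possible vertex sets of induced cycles -/
def cycSets (m k : ℕ) : Set (ZMod m × ZMod m) ⊕ (Fin k × Fin 3) → Set (Vx m k)
  | Sum.inl S => Sum.inl '' S
  | Sum.inr (t, 0) => {Sum.inr t, Sum.inl (1, 0), Sum.inl (0, 1)}
  | Sum.inr (t, 1) => {Sum.inr t, Sum.inl (1, 0), prev t}
  | Sum.inr (t, 2) => {Sum.inr t, Sum.inl (0, 1), prev t}

lemma induced_cycle_mem [NeZero m] (hm : 3 ≤ m) (C : (Gr m k).Subgraph) (v : Vx m k)
    (p : (Gr m k).Walk v v) (hp : p.IsCycle) (hpC : p.toSubgraph = C) (hC : C.IsInduced) :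
    C.verts ∈ Set.range (cycSets m k) := by
  classical
  subst hpC
  by_cases hno : ∀ t : Fin k, (Sum.inr t : Vx m k) ∉ p.toSubgraph.verts
  · refine ⟨Sum.inl (Sum.inl ⁻¹' p.toSubgraph.verts), ?_⟩
    ext w
    simp only [cycSets, Set.mem_image, Set.mem_preimage]
    constructor
    · rintro ⟨x, hx, rfl⟩
      exact hx
    · intro hw
      rcases w with x | t
      · exact ⟨x, hw, rfl⟩
      · exact absurd hw (hno t)
  push Not at hno
  -- the largest stacked vertex on the cycle
  obtain ⟨t, ht, hmax⟩ : ∃ t : Fin k, (Sum.inr t : Vx m k) ∈ p.toSubgraph.verts ∧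
      ∀ t' : Fin k, (Sum.inr t' : Vx m k) ∈ p.toSubgraph.verts → t' ≤ t := by
    obtain ⟨t, ht, hm'⟩ := Finset.exists_max_image
      (Finset.univ.filter (fun t : Fin k => (Sum.inr t : Vx m k) ∈ p.toSubgraph.verts)) id
      (by obtain ⟨t, ht⟩ := hno; exact ⟨t, by simpa using ht⟩)
    refine ⟨t, by simpa using ht, fun t' ht' => hm' t' (by simpa using ht')⟩
  have hts : (Sum.inr t : Vx m k) ∈ p.support := by
    rw [← Walk.mem_verts_toSubgraph]; exact ht
  have hn := hp.ncard_neighborSet_toSubgraph_eq_two hts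
  rw [Set.ncard_eq_two] at hn
  obtain ⟨a, b, hab, hN⟩ := hn
  have ha : p.toSubgraph.Adj (Sum.inr t) a := by
    have : a ∈ p.toSubgraph.neighborSet (Sum.inr t) := by rw [hN]; simp
    exact this
  have hb : p.toSubgraph.Adj (Sum.inr t) b := by
    have : b ∈ p.toSubgraph.neighborSet (Sum.inr t) := by rw [hN]; simp
    exact this
  have hloc : ∀ u, p.toSubgraph.Adj (Sum.inr t) u →
      u = Sum.inl (1, 0) ∨ u = Sum.inl (0, 1) ∨ u = prev t := by
    intro u hu
    rcases adj_inr t u hu.adj_sub with h | h | h | ⟨t', htt', h⟩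
    · exact Or.inl h
    · exact Or.inr (Or.inl h)
    · exact Or.inr (Or.inr h)
    · subst h
      exact absurd (hmax t' (p.toSubgraph.edge_vert hu.symm)) (not_le.2 htt')
  have hav := p.toSubgraph.edge_vert ha.symm
  have hbv := p.toSubgraph.edge_vert hb.symm
  have hfin : ∀ c d, p.toSubgraph.Adj (Sum.inr t) c → p.toSubgraph.Adj (Sum.inr t) d →
      (Gr m k).Adj c d → p.toSubgraph.verts = {Sum.inr t, c, d} := by
    intro c d hc hd hcd
    exact verts_of_triangle p hp _ _ _ hc hd
      (hC (p.toSubgraph.edge_vert hc.symm) (p.toSubgraph.edge_vert hd.symm) hcd)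
  rcases hloc a ha with rfl | rfl | rfl <;> rcases hloc b hb with rfl | rfl | rfl
  · exact absurd rfl hab
  · exact ⟨Sum.inr (t, 0), (hfin _ _ ha hb (adj_xy hm)).symm⟩
  · exact ⟨Sum.inr (t, 1), (hfin _ _ ha hb (adj_prev_x hm t).symm).symm⟩
  · exact ⟨Sum.inr (t, 0), (hfin _ _ hb ha (adj_xy hm)).symm⟩
  · exact absurd rfl hab
  · exact ⟨Sum.inr (t, 2), (hfin _ _ ha hb (adj_prev_y hm t).symm).symm⟩
  · exact ⟨Sum.inr (t, 1), (hfin _ _ hb ha (adj_prev_x hm t).symm).symm⟩
  · exact ⟨Sum.inr (t, 2), (hfin _ _ hb ha (adj_prev_y hm t).symm).symm⟩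
  · exact absurd rfl hab

/-- the number of peripheral cycles of `Gr m k` is at most `2 ^ (m * m) + 3 k` -/
lemma ncard_peripheralCycles_le [NeZero m] (hm : 3 ≤ m) :
    (peripheralCycles (Gr m k)).ncard ≤ 2 ^ (m * m) + 3 * k := by
  classical
  have hinj : Set.InjOn (fun C : (Gr m k).Subgraph => C.verts) (peripheralCycles (Gr m k)) := by
    intro C hC D hD h
    have h1 := hC.2.1.induce_top_verts
    have h2 := hD.2.1.induce_top_verts
    have h3 : C.verts = D.verts := h
    rw [← h1, ← h2, h3]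
  rw [← Set.ncard_image_of_injOn hinj]
  have hsub : (fun C : (Gr m k).Subgraph => C.verts) '' (peripheralCycles (Gr m k)) ⊆
      Set.range (cycSets m k) := by
    rintro _ ⟨C, ⟨⟨v, p, hp, hpC⟩, hC, _⟩, rfl⟩
    exact induced_cycle_mem hm C v p hp hpC hC
  refine (Set.ncard_le_ncard hsub (Set.toFinite _)).trans ?_
  rw [← Set.image_univ]
  refine (Set.ncard_image_le (Set.toFinite _)).trans ?_
  rw [Set.ncard_univ, Nat.card_eq_fintype_card, Fintype.card_sum, Fintype.card_set,
    Fintype.card_prod, Fintype.card_prod, ZMod.card, Fintype.card_fin, Fintype.card_fin]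
  omega

end

end Q123.Peri
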