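import Mathlib
import Pool.Agent.Q123.Peri.Graph
import Pool.Agent.Q123.Torus

/-!
The embedding of `Gr m k` in the torus.
-/

namespace Q123.Peri

open Set SimpleGraph

/-- heights of the stacked vertices -/
noncomputable def sg (t : ℕ) : ℝ := t / (2 * (t + 1))

lemma sg_zero : sg 0 = 0 := by simp [sg]

lemma sg_strictMono : StrictMono sg := by
  apply strictMono_nat_of_lt_succ
  intro t
  unfold sg
  rw [div_lt_div_iff₀ (by positivity) (by positivity)]
  push_cast
  nlinarith

lemma sg_nonneg (t : ℕ) : 0 ≤ sg t := by unfold sg; positivity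

lemma sg_lt (t : ℕ) : sg t < 1 / 2 := by
  unfold sg
  rw [div_lt_div_iff₀ (by positivity) (by positivity)]
  linarith

lemma sg_pos (t : ℕ) : 0 < sg (t + 1) := by
  have := sg_strictMono (Nat.succ_pos t)
  rwa [sg_zero] at this

variable {m k : ℕ}

/-- first coordinate of the point with parameter `s` on the edge `e` -/
noncomputable def X : Ed m k → ℝ → ℝ
  | .h i _, s => (i.val : ℝ) + s
  | .v i _, _ => (i.val : ℝ)
  | .d, s => 1 - s
  | .x t, s => (1 - s) * sg (t.val + 1) + s
  | .y t, s => (1 - s) * sg (t.val + 1)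
  | .z t, s => (1 - s) * sg (t.val + 1) + s * sg t.val

/-- second coordinate of the point with parameter `s` on the edge `e` -/
noncomputable def Y : Ed m k → ℝ → ℝ
  | .h _ j, _ => (j.val : ℝ)
  | .v _ j, s => (j.val : ℝ) + s
  | .d, s => s
  | .x t, s => (1 - s) * sg (t.val + 1)
  | .y t, s => (1 - s) * sg (t.val + 1) + s
  | .z t, s => (1 - s) * sg (t.val + 1) + s * sg t.val

lemma X_h (i j : ZMod m) (s : ℝ) : X (Ed.h i j : Ed m k) s = (i.val : ℝ) + s := rfl
lemma X_v (i j : ZMod m) (s : ℝ) : X (Ed.v i j : Ed m k) s = (i.val : ℝ) := rfl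
lemma Y_h (i j : ZMod m) (s : ℝ) : Y (Ed.h i j : Ed m k) s = (j.val : ℝ) := rfl
lemma Y_v (i j : ZMod m) (s : ℝ) : Y (Ed.v i j : Ed m k) s = (j.val : ℝ) + s := rfl

/-- inner edges -/
def Inner : Ed m k → Prop
  | .h _ _ => False
  | .v _ _ => False
  | _ => True

lemma continuous_X (e : Ed m k) : Continuous (X e) := by
  have : X e = fun s => X e s := rfl
  rw [this]
  cases e <;> simp only [X] <;> fun_prop

lemma continuous_Y (e : Ed m k) : Continuous (Y e) := by
  have : Y e = fun s => Y e s := rfl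
  rw [this]
  cases e <;> simp only [Y] <;> fun_prop

lemma zero_or_one_of_int {s : ℝ} (h0 : 0 ≤ s) (h1 : s ≤ 1) (n : ℤ) (h : s = n) :
    s = 0 ∨ s = 1 := by
  have h2 : (0 : ℝ) ≤ n := h ▸ h0
  have h3 : (n : ℝ) ≤ 1 := h ▸ h1
  have h4 : 0 ≤ n := by exact_mod_cast h2
  have h5 : n ≤ 1 := by exact_mod_cast h3
  have : n = 0 ∨ n = 1 := by omega
  rcases this with rfl | rfl
  · left; simpa using h
  · right; simpa using h

lemma val_eq_of_int (m : ℕ) [NeZero m] (i i' : ZMod m) (a : ℤ)
    (h : (i.val : ℤ) - (i'.val : ℤ) = a * m) : i = i' := by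
  have h2 := congrArg (Int.cast : ℤ → ZMod m) h
  push_cast at h2
  rw [ZMod.natCast_zmod_val, ZMod.natCast_zmod_val, ZMod.natCast_self, mul_zero, sub_eq_zero] at h2
  exact h2

/-- an inner edge point with an integral coordinate is an end of the edge, with integral
coordinates -/
lemma inner_int (e : Ed m k) (he : Inner e) {s : ℝ} (h0 : 0 ≤ s) (h1 : s ≤ 1)
    (h : (∃ n : ℤ, X e s = n) ∨ (∃ n : ℤ, Y e s = n)) :
    (s = 0 ∨ s = 1) ∧ (∃ n : ℤ, X e s = n) ∧ (∃ n : ℤ, Y e s = n) := by
  have hs1 : 0 ≤ 1 - s := by linarith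
  cases e with
  | h i j => exact absurd he id
  | v i j => exact absurd he id
  | d =>
    simp only [X, Y] at h ⊢
    have : s = 0 ∨ s = 1 := by
      rcases h with ⟨n, hn⟩ | ⟨n, hn⟩
      · rcases zero_or_one_of_int hs1 (by linarith) n hn with h | h
        · right; linarith
        · left; linarith
      · exact zero_or_one_of_int h0 h1 n hn
    refine ⟨this, ?_, ?_⟩
    · rcases this with rfl | rfl
      · exact ⟨1, by simp⟩
      · exact ⟨0, by simp⟩
    · rcases this with rfl | rfl
      · exact ⟨0, by simp⟩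
      · exact ⟨1, by simp⟩
  | x t =>
    simp only [X, Y] at h ⊢
    have hp := sg_pos t.val
    have hl := sg_lt (t.val + 1)
    have : s = 1 := by
      rcases h with ⟨n, hn⟩ | ⟨n, hn⟩
      · rcases zero_or_one_of_int (by positivity) (by nlinarith) n hn with h | h
        · exfalso; nlinarith
        · nlinarith
      · rcases zero_or_one_of_int (by positivity) (by nlinarith) n hn with h | h
        · rcases mul_eq_zero.1 h with h | h
          · linarith
          · linarith
        · exfalso; nlinarith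
    subst this
    exact ⟨Or.inr rfl, ⟨1, by simp⟩, ⟨0, by simp⟩⟩
  | y t =>
    simp only [X, Y] at h ⊢
    have hp := sg_pos t.val
    have hl := sg_lt (t.val + 1)
    have : s = 1 := by
      rcases h with ⟨n, hn⟩ | ⟨n, hn⟩
      · rcases zero_or_one_of_int (by positivity) (by nlinarith) n hn with h | h
        · rcases mul_eq_zero.1 h with h | h
          · linarith
          · linarith
        · exfalso; nlinarith
      · rcases zero_or_one_of_int (by positivity) (by nlinarith) n hn with h | h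
        · exfalso; nlinarith
        · nlinarith
    subst this
    exact ⟨Or.inr rfl, ⟨0, by simp⟩, ⟨1, by simp⟩⟩
  | z t =>
    simp only [X, Y] at h ⊢
    have hp := sg_pos t.val
    have hl := sg_lt (t.val + 1)
    have hq := sg_nonneg t.val
    have hr := sg_lt t.val
    obtain ⟨n, hn⟩ : ∃ n : ℤ, (1 - s) * sg (t.val + 1) + s * sg t.val = n := by
      rcases h with h | h <;> exact h
    have : s = 1 ∧ sg t.val = 0 := by
      have hnn : 0 ≤ (1 - s) * sg (t.val + 1) := by positivity
      have hnn2 : 0 ≤ s * sg t.val := by positivity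
      rcases zero_or_one_of_int (by positivity) (by nlinarith) n hn with h | h
      · have h1' : (1 - s) * sg (t.val + 1) = 0 := by linarith
        have h2' : s * sg t.val = 0 := by linarith
        have hs : s = 1 := by
          rcases mul_eq_zero.1 h1' with h | h
          · linarith
          · linarith
        subst hs
        exact ⟨rfl, by linarith⟩
      · exfalso; nlinarith
    obtain ⟨rfl, h0'⟩ := this
    exact ⟨Or.inr rfl, ⟨0, by simp [h0']⟩, ⟨0, by simp [h0']⟩⟩

lemma inner_bounds (e : Ed m k) (he : Inner e) {s : ℝ} (h0 : 0 ≤ s) (h1 : s ≤ 1) :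
    0 ≤ X e s ∧ X e s ≤ 1 ∧ 0 ≤ Y e s ∧ Y e s ≤ 1 := by
  have hs1 : 0 ≤ 1 - s := by linarith
  cases e with
  | h i j => exact absurd he id
  | v i j => exact absurd he id
  | d => simp only [X, Y]; refine ⟨?_, ?_, ?_, ?_⟩ <;> linarith
  | x t =>
    have hp := sg_pos t.val
    have hl := sg_lt (t.val + 1)
    simp only [X, Y]; refine ⟨by positivity, by nlinarith, by positivity, by nlinarith⟩
  | y t =>
    have hp := sg_pos t.val
    have hl := sg_lt (t.val + 1)
    simp only [X, Y]; refine ⟨by positivity, by nlinarith, by positivity, by nlinarith⟩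
  | z t =>
    have hp := sg_pos t.val
    have hl := sg_lt (t.val + 1)
    have hq := sg_nonneg t.val
    have hr := sg_lt t.val
    simp only [X, Y]; refine ⟨by positivity, by nlinarith, by positivity, by nlinarith⟩

lemma comb_lt {a b t : ℝ} (h0 : 0 ≤ t) (h1 : t ≤ 1) (ha : a < 1 / 2) (hb : b < 1 / 2) :
    (1 - t) * a + t * b < 1 / 2 := by
  rcases eq_or_lt_of_le h0 with h | h
  · subst h; linarith
  · have h2 : 0 ≤ (1 - t) * (1 / 2 - a) := mul_nonneg (by linarith) (by linarith)
    have h3 : 0 < t * (1 / 2 - b) := mul_pos h (by linarith)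
    nlinarith

/-- the conclusion of the disjointness lemma -/
def Good (e e' : Ed m k) (s t : ℝ) : Prop :=
  (e = e' ∧ s = t) ∨ ((s = 0 ∨ s = 1) ∧ (t = 0 ∨ t = 1))

lemma Good.symm {e e' : Ed m k} {s t : ℝ} (h : Good e e' s t) : Good e' e t s := by
  rcases h with ⟨rfl, rfl⟩ | ⟨h1, h2⟩
  · exact Or.inl ⟨rfl, rfl⟩
  · exact Or.inr ⟨h2, h1⟩

lemma z_param (u : ℕ) (w : ℕ) {t : ℝ} (h0 : 0 ≤ t) (h1 : t ≤ 1)
    (h : sg u = (1 - t) * sg (w + 1) + t * sg w) : t = 0 ∨ t = 1 := by
  have hlt := sg_strictMono (Nat.lt_succ_self w)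
  rcases Nat.lt_or_ge w u with hu | hu
  · have h2 : sg (w + 1) ≤ sg u := sg_strictMono.monotone hu
    left
    have h3 : t * (sg (w + 1) - sg w) = sg (w + 1) - sg u := by rw [h]; ring
    have h4 : 0 ≤ t * (sg (w + 1) - sg w) := mul_nonneg h0 (by linarith)
    have h5 : t * (sg (w + 1) - sg w) = 0 := by linarith
    rcases mul_eq_zero.1 h5 with h | h
    · exact h
    · exfalso; linarith
  · have h2 : sg u ≤ sg w := sg_strictMono.monotone hu
    right
    have h3 : (1 - t) * (sg (w + 1) - sg w) = sg u - sg w := by rw [h]; ring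
    have h4 : 0 ≤ (1 - t) * (sg (w + 1) - sg w) := mul_nonneg (by linarith) (by linarith)
    have h5 : (1 - t) * (sg (w + 1) - sg w) = 0 := by linarith
    rcases mul_eq_zero.1 h5 with h | h
    · linarith
    · exfalso; linarith

lemma inner_inner_eq (e e' : Ed m k) (he : Inner e) (he' : Inner e') {s t : ℝ} (hs0 : 0 ≤ s)
    (hs1 : s ≤ 1) (ht0 : 0 ≤ t) (ht1 : t ≤ 1) (hX : X e s = X e' t) (hY : Y e s = Y e' t) :
    Good e e' s t := by
  cases e with
  | h i j => exact absurd he id
  | v i j => exact absurd he id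
  | d =>
    cases e' with
    | h i j => exact absurd he' id
    | v i j => exact absurd he' id
    | d =>
      simp only [X, Y] at hX hY
      exact Or.inl ⟨rfl, hY⟩
    | x u =>
      simp only [X, Y] at hX hY
      have hl := sg_lt (u.val + 1)
      have h : (1 - t) * (1 - 2 * sg (u.val + 1)) = 0 := by linarith
      rcases mul_eq_zero.1 h with h | h
      · right
        have : t = 1 := by linarith
        subst this
        exact ⟨Or.inl (by linarith), Or.inr rfl⟩
      · exfalso; linarith
    | y u =>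
      simp only [X, Y] at hX hY
      have hl := sg_lt (u.val + 1)
      have h : (1 - t) * (1 - 2 * sg (u.val + 1)) = 0 := by linarith
      rcases mul_eq_zero.1 h with h | h
      · right
        have : t = 1 := by linarith
        subst this
        exact ⟨Or.inr (by linarith), Or.inr rfl⟩
      · exfalso; linarith
    | z u =>
      simp only [X, Y] at hX hY
      have hl := comb_lt ht0 ht1 (sg_lt (u.val + 1)) (sg_lt u.val)
      exfalso
      linarith
  | x u =>
    cases e' with
    | h i j => exact absurd he' id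
    | v i j => exact absurd he' id
    | d =>
      simp only [X, Y] at hX hY
      have hl := sg_lt (u.val + 1)
      have h : (1 - s) * (1 - 2 * sg (u.val + 1)) = 0 := by linarith
      rcases mul_eq_zero.1 h with h | h
      · right
        have : s = 1 := by linarith
        subst this
        exact ⟨Or.inr rfl, Or.inl (by linarith)⟩
      · exfalso; linarith
    | x w =>
      simp only [X, Y] at hX hY
      have hst : s = t := by linarith
      subst hst
      have h : (1 - s) * (sg (u.val + 1) - sg (w.val + 1)) = 0 := by linarith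
      rcases mul_eq_zero.1 h with h | h
      · right
        have : s = 1 := by linarith
        exact ⟨Or.inr this, Or.inr this⟩
      · left
        have h2 := sg_strictMono.injective (sub_eq_zero.1 h)
        have : u = w := Fin.ext (by omega)
        subst this
        exact ⟨rfl, rfl⟩
    | y w =>
      simp only [X, Y] at hX hY
      right
      exact ⟨Or.inl (by linarith), Or.inl (by linarith)⟩
    | z w =>
      simp only [X, Y] at hX hY
      have hs : s = 0 := by linarith
      subst hs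
      right
      refine ⟨Or.inl rfl, z_param (u.val + 1) w.val ht0 ht1 (by linarith)⟩
  | y u =>
    cases e' with
    | h i j => exact absurd he' id
    | v i j => exact absurd he' id
    | d =>
      simp only [X, Y] at hX hY
      have hl := sg_lt (u.val + 1)
      have h : (1 - s) * (1 - 2 * sg (u.val + 1)) = 0 := by linarith
      rcases mul_eq_zero.1 h with h | h
      · right
        have : s = 1 := by linarith
        subst this
        exact ⟨Or.inr rfl, Or.inr (by linarith)⟩
      · exfalso; linarith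
    | x w =>
      simp only [X, Y] at hX hY
      right
      exact ⟨Or.inl (by linarith), Or.inl (by linarith)⟩
    | y w =>
      simp only [X, Y] at hX hY
      have hst : s = t := by linarith
      subst hst
      have h : (1 - s) * (sg (u.val + 1) - sg (w.val + 1)) = 0 := by linarith
      rcases mul_eq_zero.1 h with h | h
      · right
        have : s = 1 := by linarith
        exact ⟨Or.inr this, Or.inr this⟩
      · left
        have h2 := sg_strictMono.injective (sub_eq_zero.1 h)
        have : u = w := Fin.ext (by omega)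
        subst this
        exact ⟨rfl, rfl⟩
    | z w =>
      simp only [X, Y] at hX hY
      have hs : s = 0 := by linarith
      subst hs
      right
      refine ⟨Or.inl rfl, z_param (u.val + 1) w.val ht0 ht1 (by linarith)⟩
  | z u =>
    cases e' with
    | h i j => exact absurd he' id
    | v i j => exact absurd he' id
    | d =>
      simp only [X, Y] at hX hY
      have hl := comb_lt hs0 hs1 (sg_lt (u.val + 1)) (sg_lt u.val)
      exfalso
      linarith
    | x w =>
      simp only [X, Y] at hX hY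
      have ht : t = 0 := by linarith
      subst ht
      right
      refine ⟨z_param (w.val + 1) u.val hs0 hs1 (by linarith), Or.inl rfl⟩
    | y w =>
      simp only [X, Y] at hX hY
      have ht : t = 0 := by linarith
      subst ht
      right
      refine ⟨z_param (w.val + 1) u.val hs0 hs1 (by linarith), Or.inl rfl⟩
    | z w =>
      simp only [X, Y] at hX hY
      have hu := sg_strictMono (Nat.lt_succ_self u.val)
      have hw := sg_strictMono (Nat.lt_succ_self w.val)
      rcases lt_trichotomy u.val w.val with h | h | h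
      · right
        have h2 : sg (u.val + 1) ≤ sg w.val := sg_strictMono.monotone h
        have h3 : s * (sg (u.val + 1) - sg u.val) + (1 - t) * (sg (w.val + 1) - sg w.val)
          = sg (u.val + 1) - sg w.val := by linarith
        have h4 : 0 ≤ s * (sg (u.val + 1) - sg u.val) := mul_nonneg hs0 (by linarith)
        have h5 : 0 ≤ (1 - t) * (sg (w.val + 1) - sg w.val) :=
          mul_nonneg (by linarith) (by linarith)
        have h6 : s * (sg (u.val + 1) - sg u.val) = 0 := by linarith
        have h7 : (1 - t) * (sg (w.val + 1) - sg w.val) = 0 := by linarith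
        constructor
        · rcases mul_eq_zero.1 h6 with h | h
          · exact Or.inl h
          · exfalso; linarith
        · rcases mul_eq_zero.1 h7 with h | h
          · right; linarith
          · exfalso; linarith
      · left
        have huw : u = w := Fin.ext h
        subst huw
        refine ⟨rfl, ?_⟩
        have h3 : (s - t) * (sg (u.val + 1) - sg u.val) = 0 := by linarith
        rcases mul_eq_zero.1 h3 with h | h
        · linarith
        · exfalso; linarith
      · right
        have h2 : sg (w.val + 1) ≤ sg u.val := sg_strictMono.monotone h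
        have h3 : t * (sg (w.val + 1) - sg w.val) + (1 - s) * (sg (u.val + 1) - sg u.val)
          = sg (w.val + 1) - sg u.val := by linarith
        have h4 : 0 ≤ t * (sg (w.val + 1) - sg w.val) := mul_nonneg ht0 (by linarith)
        have h5 : 0 ≤ (1 - s) * (sg (u.val + 1) - sg u.val) :=
          mul_nonneg (by linarith) (by linarith)
        have h6 : t * (sg (w.val + 1) - sg w.val) = 0 := by linarith
        have h7 : (1 - s) * (sg (u.val + 1) - sg u.val) = 0 := by linarith
        constructor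
        · rcases mul_eq_zero.1 h7 with h | h
          · right; linarith
          · exfalso; linarith
        · rcases mul_eq_zero.1 h6 with h | h
          · exact Or.inl h
          · exfalso; linarith

section main

variable [NeZero m]

lemma h_h (i j i' j' : ZMod m) {s t : ℝ} (hs0 : 0 ≤ s) (hs1 : s ≤ 1) (ht0 : 0 ≤ t) (ht1 : t ≤ 1)
    (hX : ∃ a : ℤ, ((i.val : ℝ) + s) - ((i'.val : ℝ) + t) = a * m)
    (hY : ∃ a : ℤ, (j.val : ℝ) - (j'.val : ℝ) = a * m) :
    (i = i' ∧ j = j' ∧ s = t) ∨ ((s = 0 ∨ s = 1) ∧ (t = 0 ∨ t = 1)) := by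
  obtain ⟨a, ha⟩ := hX
  obtain ⟨b, hb⟩ := hY
  have hj : j = j' := val_eq_of_int m j j' b (by exact_mod_cast hb)
  have hD : t - s = (((i.val : ℤ) - (i'.val : ℤ) - a * m : ℤ) : ℝ) := by
    push_cast
    linarith
  set D : ℤ := (i.val : ℤ) - (i'.val : ℤ) - a * m with hDdef
  have h1 : (D : ℝ) ≤ 1 := by rw [← hD]; linarith
  have h2 : (-1 : ℝ) ≤ D := by rw [← hD]; linarith
  have h3 : D ≤ 1 := by exact_mod_cast h1
  have h4 : -1 ≤ D := by exact_mod_cast h2
  have h5 : D = 0 ∨ D = 1 ∨ D = -1 := by omega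
  rcases h5 with h | h | h
  · left
    rw [h] at hD
    push_cast at hD
    exact ⟨val_eq_of_int m i i' a (by omega), hj, by linarith⟩
  · right
    rw [h] at hD
    push_cast at hD
    exact ⟨Or.inl (by linarith), Or.inr (by linarith)⟩
  · right
    rw [h] at hD
    push_cast at hD
    exact ⟨Or.inr (by linarith), Or.inl (by linarith)⟩

/-- The main disjointness lemma. -/
lemma good_of_eq (hm : 3 ≤ m) (e e' : Ed m k) {s t : ℝ} (hs0 : 0 ≤ s) (hs1 : s ≤ 1)
    (ht0 : 0 ≤ t) (ht1 : t ≤ 1) (hX : ∃ a : ℤ, X e s - X e' t = a * m)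
    (hY : ∃ a : ℤ, Y e s - Y e' t = a * m) : Good e e' s t := by
  -- inner against lattice
  have key : ∀ (e e' : Ed m k) (s t : ℝ), 0 ≤ s → s ≤ 1 → 0 ≤ t → t ≤ 1 → Inner e → ¬ Inner e' →
      (∃ a : ℤ, X e s - X e' t = a * m) → (∃ a : ℤ, Y e s - Y e' t = a * m) →
      Good e e' s t := by
    intro e e' s t hs0 hs1 ht0 ht1 he he' hX hY
    obtain ⟨a, ha⟩ := hX
    obtain ⟨b, hb⟩ := hY
    cases e' with
    | h i j =>
      rw [X_h] at ha
      rw [Y_h] at hb
      obtain ⟨h1, ⟨n, hn⟩, _⟩ := inner_int e he hs0 hs1 (Or.inr ⟨b * m + (j.val : ℤ), by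
        push_cast; linarith⟩)
      right
      refine ⟨h1, zero_or_one_of_int ht0 ht1 (n - (i.val : ℤ) - a * m) ?_⟩
      push_cast
      linarith
    | v i j =>
      rw [X_v] at ha
      rw [Y_v] at hb
      obtain ⟨h1, _, ⟨n, hn⟩⟩ := inner_int e he hs0 hs1 (Or.inl ⟨a * m + (i.val : ℤ), by
        push_cast; linarith⟩)
      right
      refine ⟨h1, zero_or_one_of_int ht0 ht1 (n - (j.val : ℤ) - b * m) ?_⟩
      push_cast
      linarith
    | d => exact absurd trivial he'
    | x t => exact absurd trivial he'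
    | y t => exact absurd trivial he'
    | z t => exact absurd trivial he'
  have hswap : ∀ p q : ℝ, (∃ a : ℤ, p - q = a * m) → ∃ a : ℤ, q - p = a * m := by
    rintro p q ⟨a, ha⟩
    exact ⟨-a, by push_cast; linarith⟩
  by_cases he : Inner e
  · by_cases he' : Inner e'
    · -- both inner
      obtain ⟨hx0, hx1, hy0, hy1⟩ := inner_bounds e he hs0 hs1
      obtain ⟨hx0', hx1', hy0', hy1'⟩ := inner_bounds e' he' ht0 ht1
      have hzero : ∀ p q : ℝ, 0 ≤ p → p ≤ 1 → 0 ≤ q → q ≤ 1 → (∃ a : ℤ, p - q = a * m) →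
          p = q := by
        rintro p q hp0 hp1 hq0 hq1 ⟨a, ha⟩
        have hm' : (3 : ℝ) ≤ m := by exact_mod_cast hm
        have ha0 : a = 0 := by
          by_contra hne
          rcases lt_or_gt_of_ne hne with h | h
          · have : (a : ℝ) ≤ -1 := by exact_mod_cast (by omega : a ≤ -1)
            nlinarith
          · have : (1 : ℝ) ≤ a := by exact_mod_cast h
            nlinarith
        rw [ha0] at ha
        push_cast at ha
        linarith
      exact inner_inner_eq e e' he he' hs0 hs1 ht0 ht1 (hzero _ _ hx0 hx1 hx0' hx1' hX)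
        (hzero _ _ hy0 hy1 hy0' hy1' hY)
    · exact key e e' s t hs0 hs1 ht0 ht1 he he' hX hY
  · by_cases he' : Inner e'
    · exact (key e' e t s ht0 ht1 hs0 hs1 he' he (hswap _ _ hX) (hswap _ _ hY)).symm
    · -- both lattice
      cases e with
      | h i j =>
        cases e' with
        | h i' j' =>
          simp only [X, Y] at hX hY
          rcases h_h i j i' j' hs0 hs1 ht0 ht1 hX hY with ⟨rfl, rfl, rfl⟩ | h
          · exact Or.inl ⟨rfl, rfl⟩
          · exact Or.inr h
        | v i' j' =>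
          simp only [X, Y] at hX hY
          obtain ⟨a, ha⟩ := hX
          obtain ⟨b, hb⟩ := hY
          right
          refine ⟨zero_or_one_of_int hs0 hs1 ((i'.val : ℤ) - (i.val : ℤ) + a * m) ?_,
            zero_or_one_of_int ht0 ht1 ((j.val : ℤ) - (j'.val : ℤ) - b * m) ?_⟩
          · push_cast; linarith
          · push_cast; linarith
        | d => exact absurd trivial he'
        | x t => exact absurd trivial he'
        | y t => exact absurd trivial he'
        | z t => exact absurd trivial he'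
      | v i j =>
        cases e' with
        | h i' j' =>
          simp only [X, Y] at hX hY
          obtain ⟨a, ha⟩ := hX
          obtain ⟨b, hb⟩ := hY
          right
          refine ⟨zero_or_one_of_int hs0 hs1 ((j'.val : ℤ) - (j.val : ℤ) + b * m) ?_,
            zero_or_one_of_int ht0 ht1 ((i.val : ℤ) - (i'.val : ℤ) - a * m) ?_⟩
          · push_cast; linarith
          · push_cast; linarith
        | v i' j' =>
          simp only [X, Y] at hX hY
          rcases h_h j i j' i' hs0 hs1 ht0 ht1 hY hX with ⟨rfl, rfl, rfl⟩ | h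
          · exact Or.inl ⟨rfl, rfl⟩
          · exact Or.inr h
        | d => exact absurd trivial he'
        | x t => exact absurd trivial he'
        | y t => exact absurd trivial he'
        | z t => exact absurd trivial he'
      | d => exact absurd trivial he
      | x t => exact absurd trivial he
      | y t => exact absurd trivial he
      | z t => exact absurd trivial he

/-- the point of the torus with scaled coordinates `a`, `b` -/
noncomputable def q (m : ℕ) (a b : ℝ) : Torus := (((a / m : ℝ) : UnitAddCircle), ((b / m : ℝ) : UnitAddCircle))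

lemma q_eq_iff (a b a' b' : ℝ) :
    q m a b = q m a' b' ↔ (∃ n : ℤ, a - a' = n * m) ∧ (∃ n : ℤ, b - b' = n * m) := by
  have hm : 0 < m := Nat.pos_of_ne_zero (NeZero.ne m)
  unfold q
  rw [Prod.mk.injEq, Q123.Torus.coe_div_eq_iff hm, Q123.Torus.coe_div_eq_iff hm]

/-- the point of a vertex -/
noncomputable def pos : Vx m k → Torus
  | Sum.inl (i, j) => q m (i.val : ℝ) (j.val : ℝ)
  | Sum.inr t => q m (sg (t.val + 1)) (sg (t.val + 1))

/-- the point with parameter `s` on the edge `e` -/
noncomputable def pt (e : Ed m k) (s : ℝ) : Torus := q m (X e s) (Y e s)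

lemma pos_injective : Function.Injective (pos : Vx m k → Torus) := by
  have hm : 0 < m := Nat.pos_of_ne_zero (NeZero.ne m)
  have hmixed : ∀ (i j : ZMod m) (t : Fin k),
      q m (i.val : ℝ) (j.val : ℝ) ≠ q m (sg (t.val + 1)) (sg (t.val + 1)) := by
    intro i j t h
    rw [q_eq_iff] at h
    obtain ⟨⟨a, ha⟩, _⟩ := h
    have h1 := sg_pos t.val
    have h2 := sg_lt (t.val + 1)
    rcases zero_or_one_of_int h1.le (by linarith) ((i.val : ℤ) - a * m) (by push_cast; linarith)
      with h | h <;> linarith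
  intro u v h
  rcases u with ⟨i, j⟩ | t <;> rcases v with ⟨i', j'⟩ | t'
  · simp only [pos] at h
    rw [q_eq_iff] at h
    obtain ⟨⟨a, ha⟩, ⟨b, hb⟩⟩ := h
    rw [val_eq_of_int m i i' a (by exact_mod_cast ha), val_eq_of_int m j j' b (by exact_mod_cast hb)]
  · exact absurd h (hmixed i j t')
  · exact absurd h.symm (hmixed i' j' t)
  · simp only [pos] at h
    rw [q_eq_iff] at h
    obtain ⟨⟨a, ha⟩, _⟩ := h
    have h1 := sg_pos t.val
    have h2 := sg_lt (t.val + 1)
    have h1' := sg_pos t'.val
    have h2' := sg_lt (t'.val + 1)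
    have hm1 : (1 : ℝ) ≤ m := by exact_mod_cast hm
    have ha0 : a = 0 := by
      by_contra hne
      rcases lt_or_gt_of_ne hne with h | h
      · have : (a : ℝ) ≤ -1 := by exact_mod_cast (by omega : a ≤ -1)
        nlinarith
      · have : (1 : ℝ) ≤ a := by exact_mod_cast h
        nlinarith
    rw [ha0] at ha
    push_cast at ha
    have h3 : sg (t.val + 1) = sg (t'.val + 1) := by linarith
    have h4 := sg_strictMono.injective h3
    have : t = t' := Fin.ext (by omega)
    rw [this]

lemma val_succ (i : ZMod m) : ∃ n : ℤ, ((i + 1).val : ℝ) - ((i.val : ℝ) + 1) = n * m := by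
  have h : (((i + 1).val : ℤ) : ZMod m) = (((i.val : ℤ) + 1 : ℤ) : ZMod m) := by
    push_cast
    rw [ZMod.natCast_zmod_val, ZMod.natCast_zmod_val]
  rw [ZMod.intCast_eq_intCast_iff_dvd_sub] at h
  obtain ⟨n, hn⟩ := h
  refine ⟨-n, ?_⟩
  have h2 : (((i.val : ℤ) + 1 - ((i + 1).val : ℤ) : ℤ) : ℝ) = ((m * n : ℤ) : ℝ) := by rw [hn]
  push_cast at h2 ⊢
  linarith

lemma pt_zero (hm : 3 ≤ m) (e : Ed m k) : pt e 0 = pos (src e) := by
  have : Fact (1 < m) := ⟨by omega⟩
  cases e with
  | h i j => simp [pt, X, Y, src, pos]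
  | v i j => simp [pt, X, Y, src, pos]
  | d => simp [pt, X, Y, src, pos, ZMod.val_one]
  | x t => simp [pt, X, Y, src, pos]
  | y t => simp [pt, X, Y, src, pos]
  | z t => simp [pt, X, Y, src, pos]

lemma pt_one (hm : 3 ≤ m) (e : Ed m k) : pt e 1 = pos (tgt e) := by
  have : Fact (1 < m) := ⟨by omega⟩
  cases e with
  | h i j =>
    simp only [pt, X, Y, tgt, pos]
    rw [eq_comm, q_eq_iff]
    exact ⟨val_succ i, ⟨0, by simp⟩⟩
  | v i j =>
    simp only [pt, X, Y, tgt, pos]
    rw [eq_comm, q_eq_iff]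
    exact ⟨⟨0, by simp⟩, val_succ j⟩
  | d => simp [pt, X, Y, tgt, pos, ZMod.val_one]
  | x t => simp [pt, X, Y, tgt, pos, ZMod.val_one]
  | y t => simp [pt, X, Y, tgt, pos, ZMod.val_one]
  | z t =>
    by_cases h0 : t.val = 0
    · simp [pt, X, Y, tgt, prev, h0, pos, sg_zero]
    · simp only [pt, X, Y, tgt, prev, h0, dite_false, pos]
      have : t.val - 1 + 1 = t.val := by omega
      rw [this]
      simp

lemma good_of_pt_eq (hm : 3 ≤ m) (e e' : Ed m k) {s t : ℝ} (hs0 : 0 ≤ s) (hs1 : s ≤ 1)
    (ht0 : 0 ≤ t) (ht1 : t ≤ 1) (h : pt e s = pt e' t) : Good e e' s t := by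
  unfold pt at h
  rw [q_eq_iff] at h
  exact good_of_eq hm e e' hs0 hs1 ht0 ht1 h.1 h.2

/-- if a point of an edge is a vertex then it is an end of the edge -/
lemma end_of_pt_eq_pos (hm : 3 ≤ m) (e : Ed m k) {s : ℝ} (hs0 : 0 ≤ s) (hs1 : s ≤ 1)
    (v : Vx m k) (h : pt e s = pos v) : v = src e ∨ v = tgt e := by
  obtain ⟨e', he'⟩ : ∃ e' : Ed m k, v = src e' := by
    rcases v with ⟨i, j⟩ | t
    · exact ⟨Ed.h i j, rfl⟩
    · exact ⟨Ed.x t, rfl⟩
  have hg := good_of_pt_eq hm e e' hs0 hs1 le_rfl zero_le_one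
    (h.trans (by rw [he', pt_zero hm]))
  have hs : s = 0 ∨ s = 1 := by
    rcases hg with ⟨_, h⟩ | ⟨h, _⟩
    · exact Or.inl h
    · exact h
  rcases hs with rfl | rfl
  · rw [pt_zero hm] at h
    exact Or.inl (pos_injective h).symm
  · rw [pt_one hm] at h
    exact Or.inr (pos_injective h).symm

lemma pt_injective (hm : 3 ≤ m) (e : Ed m k) {s t : ℝ} (hs0 : 0 ≤ s) (hs1 : s ≤ 1)
    (ht0 : 0 ≤ t) (ht1 : t ≤ 1) (h : pt e s = pt e t) : s = t := by
  have hne : pos (src e) ≠ pos (tgt e) := fun h => src_ne_tgt hm e (pos_injective h)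
  rcases good_of_pt_eq hm e e hs0 hs1 ht0 ht1 h with ⟨_, h⟩ | ⟨h1, h2⟩
  · exact h
  · rcases h1 with rfl | rfl <;> rcases h2 with rfl | rfl
    · rfl
    · rw [pt_zero hm, pt_one hm] at h
      exact absurd h hne
    · rw [pt_zero hm, pt_one hm] at h
      exact absurd h.symm hne
    · rfl

/-- the named edge of an edge -/
noncomputable def ed (e : (Gr m k).edgeSet) : Ed m k :=
  Classical.choose (show ∃ e' : Ed m k, s(src e', tgt e') = (e : Sym2 (Vx m k)) by
    obtain ⟨e, he⟩ := e
    induction e using Sym2.ind with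
    | _ u v => exact he.2)

lemma ed_spec (e : (Gr m k).edgeSet) : s(src (ed e), tgt (ed e)) = (e : Sym2 (Vx m k)) :=
  Classical.choose_spec (show ∃ e' : Ed m k, s(src e', tgt e') = (e : Sym2 (Vx m k)) by
    obtain ⟨e, he⟩ := e
    induction e using Sym2.ind with
    | _ u v => exact he.2)

lemma continuous_pt (e : Ed m k) : Continuous (pt e) := by
  have : pt e = fun s => pt e s := rfl
  rw [this]
  unfold pt q
  refine Continuous.prodMk ?_ ?_
  · exact (AddCircle.continuous_mk' (1 : ℝ)).comp ((continuous_X e).div_const _)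
  · exact (AddCircle.continuous_mk' (1 : ℝ)).comp ((continuous_Y e).div_const _)

/-- the embedding -/
noncomputable def emb (hm : 3 ≤ m) : Embedding (Gr m k) Torus where
  pos := pos
  arc e := ⟨fun s => pt (ed e) (s : ℝ), (continuous_pt (ed e)).comp continuous_subtype_val⟩
  pos_injective := pos_injective
  arc_injective e := by
    intro s t h
    exact Subtype.ext (pt_injective hm (ed e) s.2.1 s.2.2 t.2.1 t.2.2 h)
  arc_ends e := by
    rw [← ed_spec e, Sym2.map_mk]
    show s(pt (ed e) (0 : ℝ), pt (ed e) (1 : ℝ)) = s(pos (src (ed e)), pos (tgt (ed e)))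
    rw [pt_zero hm, pt_one hm]
  arc_vertex e s v h := by
    rw [← ed_spec e, Sym2.mem_iff]
    exact end_of_pt_eq_pos hm (ed e) s.2.1 s.2.2 v h
  arc_arc e e' s t hne h := by
    have hne' : ed e ≠ ed e' := by
      intro h'
      apply hne
      apply Subtype.ext
      rw [← ed_spec e, ← ed_spec e', h']
    have hg := good_of_pt_eq hm (ed e) (ed e') s.2.1 s.2.2 t.2.1 t.2.2 h
    obtain ⟨v, hv, hvs⟩ : ∃ v, (v = src (ed e) ∨ v = tgt (ed e)) ∧ pt (ed e) (s : ℝ) = pos v := by
      rcases hg with ⟨h', _⟩ | ⟨h1, _⟩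
      · exact absurd h' hne'
      · rcases h1 with h1 | h1
        · exact ⟨_, Or.inl rfl, by rw [h1, pt_zero hm]⟩
        · exact ⟨_, Or.inr rfl, by rw [h1, pt_one hm]⟩
    refine ⟨v, ?_, ?_, hvs⟩
    · rw [← ed_spec e, Sym2.mem_iff]; exact hv
    · rw [← ed_spec e', Sym2.mem_iff]
      exact end_of_pt_eq_pos hm (ed e') t.2.1 t.2.2 v (h.symm.trans hvs)

lemma ed_unique_h (hm : 3 ≤ m) (i j : ZMod m) (e : Ed m k)
    (h : s(src e, tgt e) = s(src (Ed.h i j : Ed m k), tgt (Ed.h i j : Ed m k))) :
    e = Ed.h i j := by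
  have h1 := one_ne_zero_of hm
  have h2 := two_ne_zero_of hm
  rw [Sym2.eq_iff] at h
  cases e with
  | h i' j' =>
    simp only [src, tgt, Sum.inl.injEq, Prod.mk.injEq] at h
    rcases h with ⟨⟨rfl, rfl⟩, _⟩ | ⟨⟨h3, _⟩, ⟨h4, _⟩⟩
    · rfl
    · exfalso
      rw [h3, add_assoc] at h4
      exact h2 (by simpa using h4)
  | v i' j' =>
    simp only [src, tgt, Sum.inl.injEq, Prod.mk.injEq] at h
    rcases h with ⟨⟨h3, h4⟩, ⟨h5, h6⟩⟩ | ⟨⟨h3, h4⟩, ⟨h5, h6⟩⟩
    · rw [h3] at h5
      exact absurd h5 (by simpa using h1)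
    · rw [h4] at h6
      exact absurd h6 (by simpa using h1)
  | d =>
    simp only [src, tgt, Sum.inl.injEq, Prod.mk.injEq] at h
    rcases h with ⟨⟨h3, h4⟩, ⟨h5, h6⟩⟩ | ⟨⟨h3, h4⟩, ⟨h5, h6⟩⟩
    · exact absurd (h6.trans h4.symm) h1
    · exact absurd (h6.trans h4.symm) h1
  | x t => simp [src, tgt] at h
  | y t => simp [src, tgt] at h
  | z t =>
    simp only [src, tgt] at h
    rcases h with ⟨h, _⟩ | ⟨h, _⟩ <;> simp at h

lemma ed_unique_v (hm : 3 ≤ m) (i j : ZMod m) (e : Ed m k)
    (h : s(src e, tgt e) = s(src (Ed.v i j : Ed m k), tgt (Ed.v i j : Ed m k))) :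
    e = Ed.v i j := by
  have h1 := one_ne_zero_of hm
  have h2 := two_ne_zero_of hm
  rw [Sym2.eq_iff] at h
  cases e with
  | h i' j' =>
    simp only [src, tgt, Sum.inl.injEq, Prod.mk.injEq] at h
    rcases h with ⟨⟨h3, h4⟩, ⟨h5, h6⟩⟩ | ⟨⟨h3, h4⟩, ⟨h5, h6⟩⟩
    · rw [h4] at h6
      exact absurd h6.symm (by simpa using h1)
    · rw [h3] at h5
      exact absurd h5 (by simpa using h1)
  | v i' j' =>
    simp only [src, tgt, Sum.inl.injEq, Prod.mk.injEq] at h
    rcases h with ⟨⟨rfl, rfl⟩, _⟩ | ⟨⟨_, h3⟩, ⟨_, h4⟩⟩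
    · rfl
    · exfalso
      rw [h3, add_assoc] at h4
      exact h2 (by simpa using h4)
  | d =>
    simp only [src, tgt, Sum.inl.injEq, Prod.mk.injEq] at h
    rcases h with ⟨⟨h3, h4⟩, ⟨h5, h6⟩⟩ | ⟨⟨h3, h4⟩, ⟨h5, h6⟩⟩
    · exact absurd (h3.trans h5.symm) h1
    · exact absurd (h3.trans h5.symm) h1
  | x t => simp [src, tgt] at h
  | y t => simp [src, tgt] at h
  | z t =>
    simp only [src, tgt] at h
    rcases h with ⟨h, _⟩ | ⟨h, _⟩ <;> simp at h

/-- every real is congruent to `i.val + s` modulo `m` -/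
lemma exists_decomp (R : ℝ) : ∃ (i : ZMod m) (s : ℝ), 0 ≤ s ∧ s ≤ 1 ∧
    ∃ n : ℤ, R - ((i.val : ℝ) + s) = n * m := by
  refine ⟨((⌊R⌋ : ℤ) : ZMod m), Int.fract R, Int.fract_nonneg R, (Int.fract_lt_one R).le, ?_⟩
  have h : (((((⌊R⌋ : ℤ) : ZMod m)).val : ℤ) : ZMod m) = ((⌊R⌋ : ℤ) : ZMod m) := by
    push_cast
    rw [ZMod.natCast_zmod_val]
  rw [ZMod.intCast_eq_intCast_iff_dvd_sub] at h
  obtain ⟨n, hn⟩ := h
  refine ⟨n, ?_⟩
  have h2 : ((⌊R⌋ - ((((⌊R⌋ : ℤ) : ZMod m)).val : ℤ) : ℤ) : ℝ) = ((m * n : ℤ) : ℝ) := by rw [hn]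
  push_cast at h2
  have h3 := Int.floor_add_fract R
  linarith

lemma mem_image_of_row (hm : 3 ≤ m) (j : Fin m) (p : Torus)
    (hp : p.2 = ((j.val / m : ℝ) : UnitAddCircle)) : p ∈ (emb (k := k) hm).image := by
  have hm0 : (m : ℝ) ≠ 0 := by exact_mod_cast NeZero.ne m
  obtain ⟨r, hr⟩ := QuotientAddGroup.mk_surjective p.1
  obtain ⟨i, s, hs0, hs1, hn⟩ := exists_decomp (m := m) (r * m)
  right
  rw [Set.mem_iUnion]
  have hj : (((j.val : ZMod m)).val : ℝ) = (j.val : ℝ) := by
    rw [ZMod.val_natCast, Nat.mod_eq_of_lt j.isLt]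
  let e : Ed m k := Ed.h i (j.val : ZMod m)
  let E : (Gr m k).edgeSet := ⟨s(src e, tgt e), adj_src_tgt hm e⟩
  refine ⟨E, ⟨s, hs0, hs1⟩, ?_⟩
  have hE : ed E = e := ed_unique_h hm i _ _ (ed_spec E)
  change pt (ed E) s = p
  rw [hE]
  unfold pt
  rw [X_h, Y_h, hj]
  have h1 : ((((i.val : ℝ) + s) / m : ℝ) : UnitAddCircle) = ((r * m / m : ℝ) : UnitAddCircle) := by
    rw [eq_comm, Q123.Torus.coe_div_eq_iff (Nat.pos_of_ne_zero (NeZero.ne m))]
    exact hn
  rw [mul_div_assoc, div_self hm0, mul_one] at h1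
  exact Prod.ext (h1.trans hr) hp.symm

lemma mem_image_of_col (hm : 3 ≤ m) (i : Fin m) (p : Torus)
    (hp : p.1 = ((i.val / m : ℝ) : UnitAddCircle)) : p ∈ (emb (k := k) hm).image := by
  have hm0 : (m : ℝ) ≠ 0 := by exact_mod_cast NeZero.ne m
  obtain ⟨r, hr⟩ := QuotientAddGroup.mk_surjective p.2
  obtain ⟨j, s, hs0, hs1, hn⟩ := exists_decomp (m := m) (r * m)
  right
  rw [Set.mem_iUnion]
  have hi : (((i.val : ZMod m)).val : ℝ) = (i.val : ℝ) := by
    rw [ZMod.val_natCast, Nat.mod_eq_of_lt i.isLt]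
  let e : Ed m k := Ed.v (i.val : ZMod m) j
  let E : (Gr m k).edgeSet := ⟨s(src e, tgt e), adj_src_tgt hm e⟩
  refine ⟨E, ⟨s, hs0, hs1⟩, ?_⟩
  have hE : ed E = e := ed_unique_v hm _ j _ (ed_spec E)
  change pt (ed E) s = p
  rw [hE]
  unfold pt
  rw [X_v, Y_v, hi]
  have h1 : ((((j.val : ℝ) + s) / m : ℝ) : UnitAddCircle) = ((r * m / m : ℝ) : UnitAddCircle) := by
    rw [eq_comm, Q123.Torus.coe_div_eq_iff (Nat.pos_of_ne_zero (NeZero.ne m))]
    exact hn
  rw [mul_div_assoc, div_self hm0, mul_one] at h1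
  exact Prod.ext hp.symm (h1.trans hr)

/-- the embedding has representativity at least `m` -/
lemma emb_representativity (hm : 3 ≤ m) : (emb (k := k) hm).RepresentativityAtLeast m := by
  intro γ _ hγ
  by_contra hcon
  push Not at hcon
  apply hγ
  have hmpos : 0 < m := Nat.pos_of_ne_zero (NeZero.ne m)
  refine Q123.Torus.nullhomotopic_of_few γ (emb (k := k) hm).image m
    (fun i : Fin m => ((i.val / m : ℝ) : UnitAddCircle)) ?_
    (fun i p hp => mem_image_of_col hm i p hp) (fun i p hp => mem_image_of_row hm i p hp) hcon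
  intro i j hij
  simp only at hij
  rw [Q123.Torus.coe_div_eq_iff hmpos] at hij
  obtain ⟨n, hn⟩ := hij
  have h1 : ((i.val : ℤ) - (j.val : ℤ)) = n * m := by exact_mod_cast hn
  have h2 := i.isLt
  have h3 := j.isLt
  have hn0 : n = 0 := by
    by_contra hne
    rcases lt_or_gt_of_ne hne with h | h
    · have : n * m ≤ -1 * m := by
        apply mul_le_mul_of_nonneg_right (by omega) (by positivity)
      omega
    · have : 1 * m ≤ n * m := by
        apply mul_le_mul_of_nonneg_right (by omega) (by positivity)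
      omega
  rw [hn0, zero_mul] at h1
  exact Fin.ext (by omega)

end main

end Q123.Peri
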